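import Pool.Agent.Run7.h983.E5
import Pool.Agent.TH409.SH.Conv

set_option autoImplicit false

/-!
# Lang's conjecture for P-recursive sequences of points

A sequence in a field is P-recursive (holonomic) of order at most `t` if it satisfies a nontrivial
linear recurrence with `t + 1` terms and polynomial coefficients of any degree, as `m!`,
`binomial(2m, m)`, the Apéry numbers, and all linear recurrence sequences.  Let `X` be the integral
closed subvariety of projective `n`-space over a number field `k` (for instance over `ℚ`) given by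
the forms in the finite set `FF`.

(1) `X` is not uniruled (for instance: `X` is of general type and of positive dimension) if and only
if for every `t` there is ONE proper closed subset `Z = X ∩ {G = 0}` of `X` such that for all number
fields `K ⊇ k` and all sequences of vectors `x(m)` in `K ^ (n + 1)` whose coordinates are P-recursive
of order at most `t` the following holds.  There is `T ≥ 1` such that for each class modulo `T`
either the points `x(m)` with large `m` in the class move on one rational curve `ρ` of `X`, as the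
values `ρ(m)` of its parametrisation at `m` (in particular they may be constant), or the set of the
`m` in the class for which `x(m)` is a point of `X ∖ Z` has upper Banach density zero.

(2) If all `x(m)` with large `m` are on `X`, and `X` is not uniruled, there is more precisely a number
`B` which depends on `X` and `t` only, and not on `K` or the sequence, such that on each class modulo
some `T` either all large `m` have `x(m)` in `Z`, or `x(m)` is, for all large `m`, a multiple of
`ρ_i(m)` for one of at most `B` rational curves `ρ_1, ..., ρ_B` of `X`.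

(3) Non-density: if `X` is not uniruled and has infinitely many complex points, then for each
P-recursive sequence of vectors there is a proper closed subset `Z'` of `X` such that the set of the
`m` with `x(m)` in `X ∖ Z'` has upper Banach density zero.

(4) Let all nonconstant rational curves of `X ⊗ ℂ` lie in `Z = {G = 0}` (`X` need not be integral, and
`G` may be any form).  Then `Z` has the properties in (1) and (2) for all `t`, the curves are
constant, and there is a bound `B` for their number, in (2), which depends only on `n`, `t` and the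
degrees of the equations of `X` and `Z`.  The case `G = 1` is the starting file
`MP_627a61_nt.HolonomicSequences`.

Method.  The polynomials over `ℂ(t)` which vanish on the fundamental matrix of a difference system
have a stabiliser `H` in `GL_r(ℂ)`, and the points of the sequence are specialisations of the points
of one orbit of `H` over the algebraic closure of `ℂ(t)` (project HQ of helper419 and others).  On a
variety that is not uniruled the orbits of all groups of `r × r` matrices have at most `B` points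
off one hypersurface (`strong_unif` below: an ultraproduct of counterexamples `H_i`, off the first
`i` hypersurfaces and with more than `i` points, gives by the theory of iterated recurrences of
helper377 and others a rational curve through the generic point).  So the ratios of the coordinates
are roots of one polynomial, and Hilbert's irreducibility theorem and noetherian arguments give
curves with parameter `m`.
-/

namespace Pool.Agent.Results.MP_2ae8fe_ag.HolonomicSequences

open Polynomial Pool.Agent.H533R3.SL Pool.Agent.Run7.h983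

/-- The sequence `s` satisfies a nontrivial linear recurrence with `t + 1` terms and polynomial
coefficients. -/
def RecOrder {K : Type} [Field K] (t : ℕ) (s : ℕ → K) : Prop :=
  ∃ p : Fin (t + 1) → K[X], p ≠ 0 ∧
    ∀ m : ℕ, ∑ i : Fin (t + 1), (p i).eval (m : K) * s (m + i) = 0

/-- `S` has upper Banach density zero. -/
def BanachDensityZero (S : Set ℕ) : Prop :=
  ∀ δ : ℝ, 0 < δ → ∃ L : ℕ, ∀ a l : ℕ, L ≤ l → ((S ∩ Set.Ico a (a + l)).ncard : ℝ) < δ * l

/-- the `m` for which `x(m)` is a point of the variety of `FF` outside of `G = 0` -/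
def hits {n : ℕ} {k K : Type} [Field k] [Field K] [Algebra k K]
    (FF : Set (MvPolynomial (Fin (n + 1)) k)) (G : MvPolynomial (Fin (n + 1)) k)
    (x : ℕ → Fin (n + 1) → K) : Set ℕ :=
  {m | x m ≠ 0 ∧ (∀ F ∈ FF, MvPolynomial.aeval (x m) F = 0) ∧ MvPolynomial.aeval (x m) G ≠ 0}

/-- For all large `m` in the class of `a` modulo `T` the vector `x(m)` is a multiple of `ρ(m)`. -/
def Follows {n : ℕ} {K : Type} [Field K] (x : ℕ → Fin (n + 1) → K) (T a : ℕ)
    (ρ : Fin (n + 1) → K[X]) : Prop :=
  ∃ N : ℕ, ∀ m ≥ N, m % T = a % T → ∃ s : K, x m = fun j => s * (ρ j).eval (m : K)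

/-- For all large `m` in the class of `a` modulo `T` the polynomial `G` vanishes at `x(m)`. -/
def Vanishes {n : ℕ} {k K : Type} [Field k] [Field K] [Algebra k K]
    (G : MvPolynomial (Fin (n + 1)) k) (x : ℕ → Fin (n + 1) → K) (T a : ℕ) : Prop :=
  ∃ N : ℕ, ∀ m ≥ N, m % T = a % T → MvPolynomial.aeval (x m) G = 0

/-- `ρ` is a curve on the variety of `FF`. -/
def OnVariety {n : ℕ} {k K : Type} [Field k] [Field K] [Algebra k K]
    (FF : Set (MvPolynomial (Fin (n + 1)) k)) (ρ : Fin (n + 1) → K[X]) : Prop :=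
  ∀ F ∈ FF, MvPolynomial.aeval ρ F = 0

/-- On each class modulo some `T` the points of the sequence follow a curve on the variety, or those
on the variety and off `G = 0` have upper Banach density zero. -/
def CurvesOrSparse {n : ℕ} {k K : Type} [Field k] [Field K] [Algebra k K]
    (FF : Set (MvPolynomial (Fin (n + 1)) k)) (G : MvPolynomial (Fin (n + 1)) k)
    (x : ℕ → Fin (n + 1) → K) : Prop :=
  ∃ T : ℕ, 1 ≤ T ∧ ∀ a : ℕ, (∃ ρ : Fin (n + 1) → K[X], OnVariety FF ρ ∧ Follows x T a ρ) ∨
    BanachDensityZero {m | m % T = a % T ∧ m ∈ hits FF G x}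

/-- On each class modulo some `T` the form `G` vanishes at the points of the sequence, or they follow
one of the curves `c_1, ..., c_B` on the variety, with finitely many exceptions. -/
def FewCurves {n : ℕ} {k K : Type} [Field k] [Field K] [Algebra k K]
    (FF : Set (MvPolynomial (Fin (n + 1)) k)) (G : MvPolynomial (Fin (n + 1)) k) (B : ℕ)
    (x : ℕ → Fin (n + 1) → K) : Prop :=
  ∃ c : Fin B → Fin (n + 1) → K[X], (∀ i, OnVariety FF (c i)) ∧
    ∃ T : ℕ, 1 ≤ T ∧ ∀ a : ℕ, Vanishes G x T a ∨ ∃ i, Follows x T a (c i)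

/-- the same with points instead of curves -/
def FewPoints {n : ℕ} {K : Type} [Field K] (G : MvPolynomial (Fin (n + 1)) K) (B : ℕ)
    (x : ℕ → Fin (n + 1) → K) : Prop :=
  ∃ (c : Fin B → Fin (n + 1) → K) (T : ℕ), 1 ≤ T ∧ ∀ a : ℕ,
    Vanishes G x T a ∨ ∃ i, ∃ N : ℕ, ∀ m ≥ N, m % T = a % T → ∃ s : K, x m = s • c i

/-- On each class modulo some `T` the point is eventually constant, or the points on the variety and
off `G = 0` have upper Banach density zero. -/
def PointsOrSparse {n : ℕ} {K : Type} [Field K] (FF : Set (MvPolynomial (Fin (n + 1)) K))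
    (G : MvPolynomial (Fin (n + 1)) K) (x : ℕ → Fin (n + 1) → K) : Prop :=
  ∃ T : ℕ, 1 ≤ T ∧ ∀ a : ℕ, (∃ c : Fin (n + 1) → K, ∃ N : ℕ, ∀ m ≥ N, m % T = a % T →
      ∃ s : K, x m = s • c) ∨
    BanachDensityZero {m | m % T = a % T ∧ m ∈ hits FF G x}

/-- Every curve over `ℂ` on the variety of `FF`, embedded by `σ`, given by polynomials `q_i` of one
variable, on which `G` does not vanish identically, is constant. -/
def CurvesIn {n : ℕ} {K : Type} [Field K] (σ : K →+* ℂ) (FF : Set (MvPolynomial (Fin (n + 1)) K))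
    (G : MvPolynomial (Fin (n + 1)) K) : Prop :=
  ∀ q : Fin (n + 1) → ℂ[X], (∀ F ∈ FF, MvPolynomial.eval₂ (C.comp σ) q F = 0) →
    MvPolynomial.eval₂ (C.comp σ) q G ≠ 0 →
    ∀ i j (a b : ℂ), (q i).eval a * (q j).eval b = (q j).eval a * (q i).eval b

theorem banach_iff (S : Set ℕ) :
    BanachDensityZero S ↔ ¬ Pool.Agent.N419.HQ.PosDens S := by
  unfold BanachDensityZero Pool.Agent.N419.HQ.PosDens
  push Not
  constructor
  · intro h δ hδ
    obtain ⟨L, hL⟩ := h δ hδ
    exact ⟨L, fun a l hl => hL a l hl⟩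
  · intro h δ hδ
    obtain ⟨L, hL⟩ := h δ hδ
    exact ⟨L, fun a l hl => hL a l hl⟩

section

variable {n : ℕ} {k K : Type} [Field k] [Field K] [Algebra k K]

theorem ev_map (y : Fin (n + 1) → K) (F : MvPolynomial (Fin (n + 1)) k) :
    MvPolynomial.eval y (MvPolynomial.map (algebraMap k K) F) = MvPolynomial.aeval y F := by
  rw [MvPolynomial.eval_map, MvPolynomial.aeval_def]

theorem on_map {FF : Set (MvPolynomial (Fin (n + 1)) k)} {ρ : Fin (n + 1) → K[X]}
    (h : ∀ F ∈ (MvPolynomial.map (algebraMap k K)) '' FF, MvPolynomial.aeval ρ F = 0) :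
    OnVariety FF ρ := by
  intro F hF
  have h2 := h _ ⟨F, hF, rfl⟩
  rw [MvPolynomial.aeval_def, MvPolynomial.eval₂_map] at h2
  rw [MvPolynomial.aeval_def]
  exact h2

theorem cos_of_alt {FF : Set (MvPolynomial (Fin (n + 1)) k)} {G : MvPolynomial (Fin (n + 1)) k}
    {x : ℕ → Fin (n + 1) → K}
    (h : ∃ T : ℕ, 1 ≤ T ∧ ∀ a : ℕ, Alt ((MvPolynomial.map (algebraMap k K)) '' FF)
      (MvPolynomial.map (algebraMap k K) G) x {m | m % T = a % T}) : CurvesOrSparse FF G x := by
  obtain ⟨T, hT, h⟩ := h
  refine ⟨T, hT, fun a => ?_⟩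
  rcases h a with ⟨ρ, hρ, N, hN⟩ | h1
  · exact Or.inl ⟨ρ, on_map hρ, N, fun m hm hma => hN m hm hma⟩
  · right
    rw [banach_iff]
    refine fun h2 => h1 (Pool.Agent.N419.HQ.Dens_mono ?_ h2)
    rintro m ⟨hm1, hm2, hm3, hm4⟩
    refine ⟨hm1, hm2, ?_, ?_⟩
    · rintro _ ⟨F, hF, rfl⟩
      rw [ev_map]
      exact hm3 F hF
    · rw [ev_map]
      exact hm4

end

theorem nonuni {k : Type} [Field k] [NumberField k] {n : ℕ}
    (FF : Set (MvPolynomial (Fin (n + 1)) k)) (hhom : ∀ F ∈ FF, ∃ e, F.IsHomogeneous e)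
    (hprime : (Ideal.span FF).IsPrime) (hnu : ¬ Uniruled (Ideal.span FF)) (t : ℕ) :
    ∃ (G : MvPolynomial (Fin (n + 1)) k) (B : ℕ), (∃ e, G.IsHomogeneous e) ∧
      G ∉ Ideal.span FF ∧ ∀ (K : Type) [Field K] [NumberField K] [Algebra k K]
        (x : ℕ → Fin (n + 1) → K), (∀ j, RecOrder t fun m => x m j) →
        (∃ T : ℕ, 1 ≤ T ∧ ∀ a : ℕ, Alt ((MvPolynomial.map (algebraMap k K)) '' FF)
          (MvPolynomial.map (algebraMap k K) G) x {m | m % T = a % T}) ∧
        ((∃ N : ℕ, ∀ m ≥ N, ∀ F ∈ FF, MvPolynomial.aeval (x m) F = 0) → FewCurves FF G B x) := by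
  obtain ⟨G, B, hG1, hG2, hB, h⟩ := nonuni_sys FF hhom hprime hnu ((n + 1) * t)
  refine ⟨G, B, hG1, hG2, ?_⟩
  intro K _ _ _ x hx
  have hhomK : ∀ F ∈ (MvPolynomial.map (algebraMap k K)) '' FF, ∃ e, F.IsHomogeneous e := by
    rintro _ ⟨F, hF, rfl⟩
    obtain ⟨e, he⟩ := hhom F hF
    exact ⟨e, he.map _⟩
  have hGK : ∃ e, (MvPolynomial.map (algebraMap k K) G).IsHomogeneous e := by
    obtain ⟨e, he⟩ := hG1
    exact ⟨e, he.map _⟩
  refine ⟨seq_off hhomK hGK t (h K) x hx, fun hX => ?_⟩
  obtain ⟨N, hN⟩ := hX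
  obtain ⟨c, hc, T, hT, hcl⟩ := seq_on hhomK hGK t (h K) x hx ⟨N, by
    rintro m hm _ ⟨F, hF, rfl⟩
    rw [ev_map]
    exact hN m hm F hF⟩
  refine ⟨c, fun i => on_map (hc i), T, hT, fun a => ?_⟩
  rcases hcl a with ⟨N1, hN1⟩ | ⟨i, h1⟩
  · left
    refine ⟨N1, fun m hm hma => ?_⟩
    rw [← ev_map]
    exact hN1 m hm hma
  · exact Or.inr ⟨i, h1⟩

/-- sequences on uniruled varieties -/
theorem uni {k : Type} [Field k] [NumberField k] {n : ℕ}
    (FF : Set (MvPolynomial (Fin (n + 1)) k)) (hu : Uniruled (Ideal.span FF)) :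
    ∃ t : ℕ, ∀ G : MvPolynomial (Fin (n + 1)) k, (∃ e, G.IsHomogeneous e) →
      G ∉ Ideal.span FF → ∃ (K : Type) (_ : Field K) (_ : NumberField K) (_ : Algebra k K)
        (x : ℕ → Fin (n + 1) → K), (∀ j, RecOrder t fun m => x m j) ∧
        ¬ CurvesOrSparse FF G x := by
  classical
  obtain ⟨L, iL, iA, p, hp1, hp2, hp3⟩ := hu
  set D : ℕ := Finset.univ.sup (fun i => (p i).natDegree) + 1 with hD
  have hNc : ∀ i m, D ≤ m → (p i).coeff m = 0 := by
    intro i m hm
    apply Polynomial.coeff_eq_zero_of_natDegree_lt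
    have := Finset.le_sup (f := fun i => (p i).natDegree) (Finset.mem_univ i)
    omega
  refine ⟨D, ?_⟩
  intro G hG1 hG2
  obtain ⟨K, iK, iN, iAK, w, h1, h2, h3⟩ := Pool.Agent.TH409.SH.specialise k L p FF (by
      intro F hF
      exact hp1 F (Ideal.subset_span hF)) D hNc hp3 G (hp2 G hG1 hG2)
  let q : Fin (n + 1) → Polynomial K := cur w (fun j => (j : ℕ))
  have hevG : ∀ (F : MvPolynomial (Fin (n + 1)) k) (t : K), (MvPolynomial.aeval q F).eval t =
      MvPolynomial.aeval (fun i => (q i).eval t) F := by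
    intro F t
    exact MvPolynomial.comp_aeval_apply (R := k) q
      ((Polynomial.aeval t : Polynomial K →ₐ[K] K).restrictScalars k) F
  have τ : K →+* ℂ := (IsAlgClosed.lift : K →ₐ[ℚ] ℂ).toRingHom
  have hqc : ∀ i k', D ≤ k' → (q i).coeff k' = 0 := by
    intro i k' hk'
    simp only [q, cur]
    rw [Polynomial.finsetSum_coeff]
    refine Finset.sum_eq_zero fun j _ => ?_
    rw [Polynomial.coeff_C_mul, Polynomial.coeff_X_pow, if_neg, mul_zero]
    have := j.2
    omega
  -- the powers of two
  have hpow : Function.Injective fun m : ℕ => (2 : K) ^ m := by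
    intro m m' h
    have h4 : ((2 ^ m : ℕ) : K) = ((2 ^ m' : ℕ) : K) := by push_cast; exact h
    exact Nat.pow_right_injective le_rfl (Nat.cast_injective h4)
  have hlarge : ∀ f : K[X], f ≠ 0 → ∃ N : ℕ, ∀ m ≥ N, f.eval ((2 : K) ^ m) ≠ 0 := by
    intro f hf
    have hfin : {m : ℕ | f.eval ((2 : K) ^ m) = 0}.Finite := by
      have h4 : {a : K | f.IsRoot a}.Finite := Polynomial.finite_setOfPred_isRoot hf
      exact h4.preimage hpow.injOn
    obtain ⟨N, hN⟩ := hfin.bddAbove
    refine ⟨N + 1, fun m hm h0 => ?_⟩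
    have := hN h0
    omega
  have hGq : MvPolynomial.aeval q G ≠ 0 := by
    intro h0
    apply h3
    have h4 := hevG G 1
    rw [h0, Polynomial.eval_zero] at h4
    exact h4.symm
  have hq0 : ∃ i, q i ≠ 0 := by
    by_contra hcon
    push Not at hcon
    obtain ⟨i, j, hij⟩ := h2
    apply hij
    have e : ∀ i, cur w (fun j => (j : ℕ)) i = 0 := hcon
    rw [e i, e j]
  obtain ⟨i0, hi0⟩ := hq0
  refine ⟨K, iK, iN, iAK, fun m i => (q i).eval ((2 : K) ^ m), fun j => ?_, ?_⟩
  · exact rec_pow D (q j) (hqc j)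
  · rintro ⟨T, hT, hcl⟩
    rcases hcl 0 with ⟨ρ, -, N, hN⟩ | h4
    · exact not_rational τ q h2 ρ T N 0 hT hN
    · rw [banach_iff] at h4
      apply h4
      obtain ⟨N1, hN1⟩ := hlarge _ hGq
      obtain ⟨N2, hN2⟩ := hlarge _ hi0
      refine Pool.Agent.N419.HQ.Dens_mono ?_
        (Pool.Agent.N419.HQ.Dens_class hT 0 (max N1 N2))
      rintro m ⟨hm1, hm2⟩
      refine ⟨hm1, ?_, ?_, ?_⟩
      · intro h5
        exact hN2 m (le_trans (le_max_right _ _) hm2) (congrFun h5 i0)
      · intro F hF
        rw [← hevG, h1 F hF, Polynomial.eval_zero]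
      · rw [← hevG]
        exact hN1 m (le_trans (le_max_left _ _) hm2)

/-- (1) and (2): `X` is not uniruled if and only if for each order `t` there is one form `G` that does
not vanish on `X` and a bound `B` as in `CurvesOrSparse` and `FewCurves`, for all number fields and
all sequences.  (3) If `X` is not uniruled and has infinitely many complex points, then for each
P-recursive sequence there is a form `H` that does not vanish on `X` such that the points of the
sequence on `X` and off `H = 0` have upper Banach density zero.  (4) If all nonconstant curves on a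
projective algebraic set over a number field, given by forms of degree at most `d`, lie on the
hypersurface `G = 0` of degree at most `d`, then `G` has these properties for all orders, with points
instead of curves, and with a bound for the number of the points which depends only on `n`, `d` and
the order. -/
theorem result :
    (∀ (k : Type) [Field k] [NumberField k] (n : ℕ) (FF : Finset (MvPolynomial (Fin (n + 1)) k)),
      (Ideal.span (FF : Set (MvPolynomial (Fin (n + 1)) k))).IsPrime →
      (∀ F ∈ FF, ∃ e, F.IsHomogeneous e) →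
      (¬ Uniruled (Ideal.span (FF : Set (MvPolynomial (Fin (n + 1)) k))) ↔
        ∀ t : ℕ, ∃ (G : MvPolynomial (Fin (n + 1)) k) (B : ℕ), (∃ e, G.IsHomogeneous e) ∧
          G ∉ Ideal.span (FF : Set (MvPolynomial (Fin (n + 1)) k)) ∧
          ∀ (K : Type) [Field K] [NumberField K] [Algebra k K] (x : ℕ → Fin (n + 1) → K),
            (∀ j, RecOrder t fun m => x m j) →
            CurvesOrSparse (FF : Set (MvPolynomial (Fin (n + 1)) k)) G x ∧
            ((∃ N : ℕ, ∀ m ≥ N, ∀ F ∈ FF, MvPolynomial.aeval (x m) F = 0) →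
              FewCurves (FF : Set (MvPolynomial (Fin (n + 1)) k)) G B x)) ∧
      (¬ Uniruled (Ideal.span (FF : Set (MvPolynomial (Fin (n + 1)) k))) → ∀ σ : k →+* ℂ,
        {P : Projectivization ℂ (Fin (n + 1) → ℂ) |
          ∀ F ∈ FF, MvPolynomial.eval₂ σ P.rep F = 0}.Infinite →
        ∀ (K : Type) [Field K] [NumberField K] [Algebra k K] (x : ℕ → Fin (n + 1) → K) (t : ℕ),
          (∀ j, RecOrder t fun m => x m j) →
          ∃ H : MvPolynomial (Fin (n + 1)) k, (∃ e, H.IsHomogeneous e) ∧
            H ∉ Ideal.span (FF : Set (MvPolynomial (Fin (n + 1)) k)) ∧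
            BanachDensityZero (hits (FF : Set (MvPolynomial (Fin (n + 1)) k)) H x))) ∧
    (∀ n d t : ℕ, ∃ B : ℕ, ∀ (K : Type) [Field K] [NumberField K] (σ : K →+* ℂ)
      (FF : Set (MvPolynomial (Fin (n + 1)) K)), (∀ F ∈ FF, ∃ e ≤ d, F.IsHomogeneous e) →
      ∀ G : MvPolynomial (Fin (n + 1)) K, (∃ e ≤ d, G.IsHomogeneous e) → CurvesIn σ FF G →
      ∀ x : ℕ → Fin (n + 1) → K, (∀ j, RecOrder t fun m => x m j) →
        PointsOrSparse FF G x ∧
        ((∃ N : ℕ, ∀ m ≥ N, ∀ F ∈ FF, MvPolynomial.eval (x m) F = 0) → FewPoints G B x)) := by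
  refine ⟨fun k _ _ n FF hprime hhom => ⟨⟨fun hnu t => ?_, fun h hu => ?_⟩, ?_⟩, fun n d t => ?_⟩
  · obtain ⟨G, B, hG1, hG2, h⟩ := nonuni (FF : Set (MvPolynomial (Fin (n + 1)) k))
      (fun F hF => hhom F hF) hprime hnu t
    refine ⟨G, B, hG1, hG2, ?_⟩
    intro K _ _ _ x hx
    obtain ⟨h1, h2⟩ := h K x hx
    exact ⟨cos_of_alt h1, h2⟩
  · obtain ⟨t, ht⟩ := uni (FF : Set (MvPolynomial (Fin (n + 1)) k)) hu
    obtain ⟨G, B, hG1, hG2, h1⟩ := h t
    obtain ⟨K, i1, i2, i3, x, hx, hnot⟩ := ht G hG1 hG2
    exact hnot (h1 K x hx).1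
  · intro hnu σ hinf K _ _ _ x t hx
    obtain ⟨G, B, hG1, hG2, h⟩ := nonuni (FF : Set (MvPolynomial (Fin (n + 1)) k))
      (fun F hF => hhom F hF) hprime hnu t
    obtain ⟨H, hH1, hH2, hH3⟩ := weak_seq σ (FF : Set (MvPolynomial (Fin (n + 1)) k))
      (fun F hF => hhom F hF) hprime hnu hinf K hG1 hG2 x (h K x hx).1
    refine ⟨H, hH1, hH2, ?_⟩
    rw [banach_iff]
    exact hH3
  · obtain ⟨B, hB, h⟩ := cur_sys n d ((n + 1) * t)
    refine ⟨B, ?_⟩
    intro K _ _ σ FF hFF G hG hcur x hx
    have hcur' : Pool.Agent.N419.HU.CurIn σ FF {G} := by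
      intro q hq hqG
      obtain ⟨_, rfl, hne⟩ := hqG
      exact hcur q hq hne
    have hhom : ∀ F ∈ FF, ∃ e, F.IsHomogeneous e := by
      intro F hF
      obtain ⟨e, -, he⟩ := hFF F hF
      exact ⟨e, he⟩
    have hG' : ∃ e, G.IsHomogeneous e := by
      obtain ⟨e, -, he⟩ := hG
      exact ⟨e, he⟩
    have hs := h K σ FF hFF G hG hcur'
    constructor
    · obtain ⟨T, hT, h1⟩ := seq_off hhom hG' t hs x hx
      refine ⟨T, hT, fun a => ?_⟩
      rcases h1 a with ⟨ρ, hρ, N, hN⟩ | h2
      · rcases const_of_cur σ FF G hcur' ρ hρ with h3 | ⟨b, hb⟩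
        · right
          rw [banach_iff]
          refine not_posDens_bdd N ?_
          rintro m ⟨hm1, -, -, hm4⟩
          by_contra hlt
          obtain ⟨s, hs⟩ := hN m (by omega) hm1
          apply hm4
          obtain ⟨e, he⟩ := hG'
          change MvPolynomial.eval (x m) G = 0
          rw [hs, Pool.Agent.N419.HQ.Runs_hom he, ← Pool.Agent.N419.HQ.Runs_eval, h3, eval_zero,
            mul_zero]
        · left
          refine ⟨b, N, fun m hm hma => ?_⟩
          obtain ⟨s, hs⟩ := hN m hm hma
          obtain ⟨s', hs'⟩ := hb (m : K)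
          refine ⟨s * s', ?_⟩
          rw [hs, mul_smul, ← hs']
          rfl
      · right
        rw [banach_iff]
        refine fun h3 => h2 (Pool.Agent.N419.HQ.Dens_mono ?_ h3)
        rintro m ⟨hm1, hm2, hm3, hm4⟩
        exact ⟨hm1, hm2, hm3, hm4⟩
    · intro hX
      obtain ⟨c, hc, T, hT, hcl⟩ := seq_on hhom hG' t hs x hx hX
      have hb : ∀ i, ∃ b : Fin (n + 1) → K, MvPolynomial.aeval (c i) G = 0 ∨
          ∀ a : K, ∃ s : K, (fun j => (c i j).eval a) = s • b := by
        intro i
        rcases const_of_cur σ FF G hcur' (c i) (hc i) with h3 | ⟨b, hb⟩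
        · exact ⟨0, Or.inl h3⟩
        · exact ⟨b, Or.inr hb⟩
      choose b hb using hb
      refine ⟨b, T, hT, fun a => ?_⟩
      rcases hcl a with ⟨N1, hN1⟩ | ⟨i, N1, hN1⟩
      · exact Or.inl ⟨N1, hN1⟩
      · rcases hb i with h3 | h3
        · left
          refine ⟨N1, fun m hm hma => ?_⟩
          obtain ⟨s, hs⟩ := hN1 m hm hma
          obtain ⟨e, he⟩ := hG'
          change MvPolynomial.eval (x m) G = 0
          rw [hs, Pool.Agent.N419.HQ.Runs_hom he, ← Pool.Agent.N419.HQ.Runs_eval, h3, eval_zero,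
            mul_zero]
        · right
          refine ⟨i, N1, fun m hm hma => ?_⟩
          obtain ⟨s, hs⟩ := hN1 m hm hma
          obtain ⟨s', hs'⟩ := h3 (m : K)
          refine ⟨s * s', ?_⟩
          rw [hs, mul_smul, ← hs']
          rfl

end Pool.Agent.Results.MP_2ae8fe_ag.HolonomicSequences
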