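import Mathlib
import Pool.Agent.Run7.h972.LS.First
import Pool.Agent.Run7.h972.LS.WL

/-!
# Lang's conjecture on rational points is a question on smooth hypersurfaces

Let `X = V(S)` be any projective variety in `P^n`, `n ≥ 1` (any dimension and any singularities), over a
field `K` in `ℂ`, given by forms of degree at most `d`, `d ≥ 3`, and `v : P^n → P^N` the Veronese
embedding of degree `d`. For all `D ≥ D₁(N)` there are quadratic forms `Q_t`, `t < N (2 N + 1)`, over `K`
such that the hypersurface

`Y : ∑ t, Q_t(y) (y_0 + t y_1 + ⋯ + t^N y_N)^D = 0`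

is smooth, contains `v(X)`, and all entire curves in `Y` and all closed subvarieties of `Y` of positive
dimension which are not of general type lie in `v(X)` (`Through`).

Lang's conjecture Q1 for all varieties over `K` is equivalent to: *if `Y` is one of the smooth
hypersurfaces above, over `K`, then no component of positive dimension of the Zariski closure of
`Y(K)` is of general type*; here `D` may be restricted to any given infinite set `E`. The problem is the
case where `K = ℚ`, i.e. `K = ⊥`, but `K` can be any subfield of `ℂ`.

Q1 for a variety is Q1 for its projective closure, in dimension `0` there is nothing to prove, and Q1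
is trivial for the varieties over `ℚ` which are not geometrically irreducible (the rational points are
in the intersection of the conjugate components). So `Lang K` is Q1 for `K`.

Proof. Suppose that the condition holds and `X` is a geometrically irreducible variety of general type
over `K`. Choose `Y ⊇ v(X)` as above, and let `Z` be the Zariski closure of `Y(K)`. If `v(X) ⊆ Z`, then
`v(X)` is in a component of `Z`, which is of positive dimension and by assumption not of general type,
so it is in `v(X)` by the choice of `Y`; so `v(X)` is a component of `Z`, but it is of general type, a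
contradiction. So some form vanishes on `Y(K)` and not on `v(X)`, and by linear algebra there is such a
form over `K`. Conversely, a component of the closure of `Y(K)` has a dense set of rational points, so it
is defined over `K` and it contradicts Q1 if it is of general type.
-/

set_option autoImplicit false

namespace Pool.Agent.Results.MP_2ae8fe_ag.SmoothHypersurfacesSuffice

open MvPolynomial
open Pool.Agent.W602.GT (SubVar GeneralType)
open Pool.Agent.N254.SQ (IsForm GenericPoint OnPoints Component SmoothOver powerFormOver Monomials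
  veronese)

/-- Q1 over the field `K` in `ℂ`: for every geometrically irreducible projective variety `X = V(S)` over
`K` of general type and of positive dimension `w` there is a form `G` over `K` which vanishes at all
`K`-rational points of `X` but does not vanish on `X`. -/
def Lang (K : Subfield ℂ) : Prop :=
  ∀ (n : ℕ) (S : Set (MvPolynomial (Fin (n + 1)) K)), (∀ p ∈ S, ∃ e, p.IsHomogeneous e) →
    ∀ (L : Type) [Field L] [Algebra ℂ L] (w : ℕ) (y : Fin (n + 1) → L), 1 ≤ w →
      GenericPoint S L w y → GeneralType ℂ L w →
      ∃ G : MvPolynomial (Fin (n + 1)) K, (∃ e, G.IsHomogeneous e) ∧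
        aeval y (map (algebraMap K ℂ) G) ≠ 0 ∧
        ∀ x : Fin (n + 1) → K, x ≠ 0 → (∀ p ∈ S, eval x p = 0) → eval x G = 0

/-- no component of positive dimension of the Zariski closure of the set of the `K`-rational points of
the hypersurface `A = 0` is of general type -/
def NoGeneralComponent (K : Subfield ℂ) {N : ℕ} (A : MvPolynomial (Fin (N + 1)) K) : Prop :=
  ∀ (L : Type) [Field L] [Algebra ℂ L] (w : ℕ) (y : Fin (N + 1) → L), 1 ≤ w →
    SubVar (fun _ : Unit => map (algebraMap K ℂ) A) L w y → GeneralType ℂ L w →
    ¬ Component (OnPoints K {map (algebraMap K ℂ) A}) y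

/-- the smooth hypersurfaces through the Veronese images of all projective varieties -/
def Through (D₁ : ℕ → ℕ) : Prop :=
  ∀ n d : ℕ, 1 ≤ n → 3 ≤ d → ∃ (N : ℕ) (m : Fin (N + 1) → Fin (n + 1) → ℕ),
    Monomials n N d m ∧ ∀ D, D₁ N ≤ D → ∀ (K : Type) [Field K] [CharZero K] (σ : K →+* ℂ)
      (S : Set (MvPolynomial (Fin (n + 1)) K)), (∀ p ∈ S, ∃ e ≤ d, p.IsHomogeneous e) →
      ∃ Q : Fin (N * (2 * N + 1)) → MvPolynomial (Fin (N + 1)) K,
        (∀ t, (Q t).IsHomogeneous 2) ∧ SmoothOver (powerFormOver D Q) ∧
        (∀ x : Fin (n + 1) → ℂ, (∀ p ∈ S, eval₂ σ x p = 0) →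
          eval₂ σ (veronese m x) (powerFormOver D Q) = 0) ∧
        (∀ f : ℂ → Fin (N + 1) → ℂ, Differentiable ℂ f → (∀ z, f z ≠ 0) →
          (∀ z, eval₂ σ (f z) (powerFormOver D Q) = 0) → (∀ z w, ∃ c : ℂ, f w = c • f z) ∨
            ∀ z, ∃ x : Fin (n + 1) → ℂ, (∀ p ∈ S, eval₂ σ x p = 0) ∧ f z = veronese m x) ∧
        ∀ (L : Type) [Field L] [Algebra ℂ L] (w : ℕ) (y : Fin (N + 1) → L), 1 ≤ w →
          SubVar (fun _ : Unit => map σ (powerFormOver D Q)) L w y → GeneralType ℂ L w ∨
            ∃ (x : Fin (n + 1) → L) (c : L), c ≠ 0 ∧ (∀ p ∈ S, aeval x (map σ p) = 0) ∧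
              y = c • veronese m x

theorem result : ∃ D₁ : ℕ → ℕ, Through D₁ ∧
    ∀ (K : Subfield ℂ) (E : Set ℕ), E.Infinite → (Lang K ↔
      ∀ (N D : ℕ) (Q : Fin (N * (2 * N + 1)) → MvPolynomial (Fin (N + 1)) K), D ∈ E →
        D₁ N ≤ D → (∀ t, (Q t).IsHomogeneous 2) → SmoothOver (powerFormOver D Q) →
        NoGeneralComponent K (powerFormOver D Q)) := by
  obtain ⟨D₁, H⟩ := Run7.h972.LS.t_cons
  exact ⟨D₁, Run7.h972.LS.through H, fun K E hE => ⟨fun h N D Q _ _ _ _ =>
    Run7.h972.LS.wl_forw K h _, fun h => Run7.h972.LS.wl_back K hE H h⟩⟩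

end Pool.Agent.Results.MP_2ae8fe_ag.SmoothHypersurfacesSuffice
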