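import Mathlib
import Pool.Agent.Run7.h28.BV.NonDense2

/-!
# Rational points of varieties of general type above sparse points of projective space

Let `X` be an irreducible projective variety over `ℚ` which is not uniruled, for example a variety of
general type of positive dimension, with a finite projection to `ℙ^(n-1)`.  We prove that the rational
points of `X` whose image `x` is sparse and close to a point `c` over which `X` is unramified are not
Zariski dense in `X` (the other coordinates of the points are arbitrary): they lie in one proper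
closed subset, up to points of bounded height, uniformly in the heights of `c` and of the
coefficients of `x`.

Any variety `X'` with a dominant generically finite rational map to `ℙ^(n-1)` is birational to such
an `X` (even to a hypersurface, `m = 1`), compatibly with the projections.
-/

open Height

namespace Pool.Agent.Results.MP_2ae8fe_ag.SparseProjectionsNotDense

/-- The polynomial `P (x, y_i)` in the coordinates `x_l` and `y_i`. -/
noncomputable def eqn {n m : ℕ} (P : Polynomial (MvPolynomial (Fin n) ℤ)) (i : Fin m) :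
    MvPolynomial (Fin n ⊕ Fin m) ℤ :=
  P.eval₂ (MvPolynomial.rename Sum.inl :
    MvPolynomial (Fin n) ℤ →ₐ[ℤ] MvPolynomial (Fin n ⊕ Fin m) ℤ).toRingHom
    (MvPolynomial.X (Sum.inr i))

/-- The polynomial `P (c, Y)`. -/
noncomputable def specialise {n : ℕ} {K : Type} [Field K] (c : Fin n → K)
    (P : Polynomial (MvPolynomial (Fin n) ℤ)) : Polynomial K :=
  P.map (MvPolynomial.aeval c : MvPolynomial (Fin n) ℤ →ₐ[ℤ] K).toRingHom

/-- `z` represents a complex point of the projective variety `X` with the homogeneous equations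
`G`. -/
def OnX {σ ι : Type} (G : ι → MvPolynomial σ ℤ) (z : σ → ℂ) : Prop :=
  ∀ j, MvPolynomial.aeval z (G j) = 0

/-- The polynomial `P` vanishes on `X`. -/
def VanishesOn {σ ι : Type} (G : ι → MvPolynomial σ ℤ) (P : MvPolynomial σ ℤ) : Prop :=
  ∀ z : σ → ℂ, OnX G z → MvPolynomial.aeval z P = 0

/-- `P` is a form. -/
def IsForm {σ : Type} (P : MvPolynomial σ ℤ) : Prop := ∃ e, P.IsHomogeneous e

/-- `X` is not empty, and it is irreducible over `ℚ`: if a product of two forms vanishes on `X`, then
one of them does. -/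
def IsIrreducible {σ ι : Type} (G : ι → MvPolynomial σ ℤ) : Prop :=
  (∃ z : σ → ℂ, z ≠ 0 ∧ OnX G z) ∧ ∀ P Q : MvPolynomial σ ℤ, IsForm P → IsForm Q →
    VanishesOn G (P * Q) → VanishesOn G P ∨ VanishesOn G Q

/-- `z` represents a generic point of `X` over `ℚ`: a form over `ℚ` which vanishes at `z` vanishes
on `X`. -/
def IsGeneric {σ ι : Type} (G : ι → MvPolynomial σ ℤ) (z : σ → ℂ) : Prop :=
  OnX G z ∧ ∀ P : MvPolynomial σ ℤ, IsForm P → MvPolynomial.aeval z P = 0 → VanishesOn G P

/-- The point with the homogeneous coordinates `z` lies on a rational curve on `X`: it is the value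
at `1` of a nonconstant map from the affine line, given by complex polynomials `Q i` without common
zeros. -/
def OnRationalCurve {σ ι : Type} (G : ι → MvPolynomial σ ℤ) (z : σ → ℂ) : Prop :=
  ∃ Q : σ → Polynomial ℂ, (∀ s, ∃ i, (Q i).eval s ≠ 0) ∧
    (∀ j, MvPolynomial.aeval Q (G j) = 0) ∧ (∀ i, (Q i).eval 1 = z i) ∧
    ∃ s s' i j, (Q i).eval s * (Q j).eval s' ≠ (Q j).eval s * (Q i).eval s'

/-- `X` is uniruled: a rational curve passes through a complex point of `X` which is generic over
`ℚ`.  (Such a curve spreads out to a family of rational curves which dominates `X`, as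
`ℂ` has infinite transcendence degree over `ℚ`; conversely, if `X` is uniruled then rational curves
pass through all points.) -/
def Uniruled {σ ι : Type} (G : ι → MvPolynomial σ ℤ) : Prop :=
  ∃ z : σ → ℂ, IsGeneric G z ∧ OnRationalCurve G z

/-- Let `K` be a number field, `φ` a complex embedding of `K`, `Γ` a finitely generated subgroup of
`Kˣ`, `k` a natural number, `B` and `δ > 0` real numbers.

Let `X` be a projective variety over `ℚ` with the homogeneous coordinates `x_1, …, x_n`,
`y_1, …, y_m`, given by homogeneous equations `G`, irreducible over `ℚ` and not uniruled, such that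
`y_i` satisfies on `X` an equation `F_i (x, y_i) = 0`, where `F_i` is homogeneous of degree
`q_i ≥ 1` and monic in `y_i`.  Then there are a form `f` with integer coefficients which does not
vanish on `X`, and a constant `C`, such that the following holds for all `M ≥ 1`.

Let `c ∈ K^n` have coordinates of height at most `M` such that the polynomials `F_i (c, Y)` are
separable and split over `K`.  Let `P = (x : y)` be a rational point of `X`, with coprime integers
`x_l`, where each `x_l` is a sum of `k` terms `a u` with `u ∈ Γ` and `a ∈ K` of height at most `M`,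
and `|φ (x_l - c_l v)| ≤ M (1 + |x|) ^ (1 - δ)` for an element `v ∈ Γ` of height at most
`M (1 + |x|) ^ B`; there is no condition on `y`.  Then `f (P) = 0`, or the coordinates of `P` are at
most `(C M) ^ C` in absolute value (the `y_i` are integers). -/
theorem result {K : Type} [Field K] [NumberField K] (φ : K →+* ℂ) (Γ : Subgroup Kˣ) (hΓ : Γ.FG)
    (n m g k : ℕ) (B δ : ℝ) (hδ : 0 < δ) (G : Fin g → MvPolynomial (Fin n ⊕ Fin m) ℤ)
    (F : Fin m → Polynomial (MvPolynomial (Fin n) ℤ)) (q : Fin m → ℕ) (hq : ∀ i, 0 < q i)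
    (hG : ∀ j, IsForm (G j)) (hirr : IsIrreducible G) (hnu : ¬ Uniruled G)
    (hFm : ∀ i, (F i).Monic) (hFd : ∀ i, (F i).natDegree = q i)
    (hFh : ∀ i, ∀ j ≤ q i, ((F i).coeff j).IsHomogeneous (q i - j))
    (hFG : ∀ i, VanishesOn G (eqn (F i) i)) :
    ∃ f : MvPolynomial (Fin n ⊕ Fin m) ℤ, IsForm f ∧ ¬ VanishesOn G f ∧
      ∃ C : ℝ, 0 < C ∧ ∀ (M : ℝ) (c : Fin n → K), 1 ≤ M → (∀ l, mulHeight₁ (c l) ≤ M) →
      (∀ i, (specialise c (F i)).Separable) → (∀ i, (specialise c (F i)).Splits) →
      ∀ (v : Γ) (u : Fin n → Fin k → Γ) (a : Fin n → Fin k → K) (x : Fin n → ℤ) (y : Fin m → ℚ),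
      (∀ j, MvPolynomial.aeval (Sum.elim (fun l => (x l : ℚ)) y) (G j) = 0) →
      Finset.univ.gcd x = 1 →
      (∀ l r, mulHeight₁ (a l r) ≤ M) →
      (∀ l, (x l : K) = ∑ r, a l r * ((u l r : Kˣ) : K)) →
      mulHeight₁ ((v : Kˣ) : K) ≤ M * (1 + ∑ l, |(x l : ℝ)|) ^ B →
      (∀ l, ‖φ ((x l : K) - c l * ((v : Kˣ) : K))‖ ≤ M * (1 + ∑ l, |(x l : ℝ)|) ^ (1 - δ)) →
      MvPolynomial.aeval (Sum.elim (fun l => (x l : ℚ)) y) f = 0 ∨
        (∀ l, |(x l : ℝ)| ≤ (C * M) ^ C) ∧ ∀ i, |((y i : ℚ) : ℝ)| ≤ (C * M) ^ C := by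
  obtain ⟨f, hf1, hf2, C, hC, h⟩ := Pool.Agent.Run7.h28.BV.nonDense φ Γ hΓ n m g k q hq B δ hδ G hG
    F hFm hFd hFh hFG (by
      obtain ⟨⟨z, -, hz⟩, -⟩ := hirr
      exact ⟨z, hz⟩) hirr.2 (by
      rintro ⟨z, hz1, hz2, Q, hQ1, hQ2, hQ3, i, j, hQ4⟩
      refine hnu ⟨z, ⟨hz1, hz2⟩, Q, hQ1, hQ2, hQ3, ?_⟩
      by_contra hcon
      push Not at hcon
      apply hQ4
      refine Polynomial.funext fun s => ?_
      rw [Polynomial.eval_mul, Polynomial.eval_mul, Polynomial.eval_C, Polynomial.eval_C,
        ← hQ3 i, ← hQ3 j]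
      exact hcon s 1 i j)
  obtain ⟨C', hC', hbd⟩ := Pool.Agent.Run7.h28.BV.all_bd q hq F hFm hFd hFh C hC
  refine ⟨f, hf1, hf2, C', hC', fun M c hM hc hsep hspl v u a x y hxy hgcd ha hx hv hgap => ?_⟩
  obtain ⟨z, hzx, hzy, hzz, hz⟩ := Pool.Agent.Run7.h28.BV.integral2 G F hFm hFG x y hxy
  obtain ⟨b, hb⟩ := Pool.Agent.Run7.h28.BV.bezout x hgcd
  rcases h M c hM hc hsep hspl v u a z hz ⟨b, by simp only [hzx]; exact hb⟩ ha
    (fun l => by rw [hzx]; exact hx l) (by simp only [hzx]; exact hv)
    (fun l => by simp only [hzx]; exact hgap l) with hk | hk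
  · left
    rw [hzz, Pool.Agent.Run7.h28.BV.cast_eval, hk, Int.cast_zero]
  · right
    have h1 := hbd M z hM (fun i => by
      rw [← Pool.Agent.Run7.h28.BV.eval_eqn]
      have h2 := Pool.Agent.Run7.h28.BV.van_rat (hFG i) _ hxy
      rw [hzz] at h2
      have h3 : MvPolynomial.aeval (fun j => (z j : ℚ)) (Pool.Agent.Run7.h28.BV.eqn (F i) i) = 0 :=
        h2
      rw [Pool.Agent.Run7.h28.BV.cast_eval] at h3
      exact_mod_cast h3) hk
    refine ⟨fun l => ?_, fun i => ?_⟩
    · have h2 := h1 (Sum.inl l)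
      rwa [hzx] at h2
    · have h2 := h1 (Sum.inr i)
      have h3 : ((y i : ℚ) : ℝ) = ((z (Sum.inr i) : ℤ) : ℝ) := by
        rw [← hzy i]
        norm_cast
      rwa [h3]

end Pool.Agent.Results.MP_2ae8fe_ag.SparseProjectionsNotDense
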